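import Pool.Agent.Q172.PP.Shared

/-!
# Primes `64 b² + 9 = 8 d² + 1`: the information threshold for the asymptotic number of indices

The admissible primes are the primes `8 d_m² + 1`, `d_m + b_m √8 = (3 + √8)^m`, with `m` odd.  The heuristic models contain each odd `m` in the
index set independently with probability `q m`, `m q m → 2 c` (the number `8 d_m² + 1` has the logarithm `~ 2 m log (3 + √8)`; the constant
depends on the small primes), so that `c log x` indices below `x` are expected.  For any random set `A` (no independence is assumed) `D(x)`,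
`relEnt q μ A (ind {n | Odd n} x)`, is the relative entropy (nats) of the law of the set of the odd numbers below `x` in `A` with respect to the
model, and `M (A ω) x` is their number.
-/

set_option autoImplicit false

namespace Pool.Agent.Results.MP_f53aaa_nt.CountAtGivenInformation

open MeasureTheory Filter Pool.Agent.Q120.ET Pool.Agent.Q172.PP.Shared
open scoped Topology

/-- The indices of the admissible primes are odd, and `m ↦ 8 d_m² + 1` is a bijection from the indices to the admissible primes.  For every
model and every nondecreasing `d ≥ 0`: all random sets with `D(x) ≤ d x` for large `x` almost surely have `M(x) ~ c log x` iff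
`∑_{n odd} d n / (n log² n) < ∞`. -/
theorem result :
    (∀ m ∈ T, Odd m) ∧ Set.BijOn (fun m => (8 * dd m ^ 2 + 1).toNat) T admissible ∧
    ∀ (c : ℝ) (q : ℕ → ℝ), Model c q →
    ∀ d : ℕ → ℝ, Monotone d → (∀ n, 0 ≤ d n) →
      ((∀ (Ω : Type) [MeasurableSpace Ω] (μ : Measure Ω) [IsProbabilityMeasure μ] (A : Ω → Set ℕ), IsRandomSet A →
        (∀ᶠ x : ℕ in atTop, D q μ A x ≤ d x) → ∀ᵐ ω ∂μ, Tendsto (fun x : ℕ => (M (A ω) x : ℝ) / Real.log x) atTop (𝓝 c)) ↔
      Summable (fun n : ℕ => if Odd n then d n / (n * Real.log n ^ 2) else 0)) :=
  ⟨t_odd, t_bij, fun c q hM d hm hd => count c q hM d hm hd⟩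

end Pool.Agent.Results.MP_f53aaa_nt.CountAtGivenInformation
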