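import Pool.Agent.Q172.PP.Shared

/-!
# Primes `64 b² + 9 = 8 d² + 1`: the limit laws of the number of indices at logarithmic information

The admissible primes are the primes `8 d_m² + 1`, `d_m + b_m √8 = (3 + √8)^m`, with `m` odd.  The heuristic models contain each odd `m` in the
index set independently with probability `q m`, `m q m → 2 c` (the number `8 d_m² + 1` has the logarithm `~ 2 m log (3 + √8)`; the constant
depends on the small primes), so that `c log x` indices below `x` are expected.  For any random set `A` (no independence is assumed) `D(x)`,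
`relEnt q μ A (ind {n | Odd n} x)`, is the relative entropy (nats) of the law of the set of the odd numbers below `x` in `A` with respect to the
model, and `M (A ω) x` is their number.
-/

set_option autoImplicit false

namespace Pool.Agent.Results.MP_f53aaa_nt.LimitLaws

open MeasureTheory Filter Pool.Agent.Q120.ET Pool.Agent.Q172.PP.Shared
open scoped Topology

/-- The indices of the admissible primes are odd, and `m ↦ 8 d_m² + 1` is a bijection from the indices to the admissible primes.  For every
model and `δ ≥ 0`: a probability measure `ν` is the law of `lim M(x) / log x` for some random set of class `δ`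
(`D(x) ≤ (δ + o(1)) log x`) iff it lives on `[0, ∞)` and `∫ (u log (u / c) - u + c) dν ≤ δ`. -/
theorem result :
    (∀ m ∈ T, Odd m) ∧ Set.BijOn (fun m => (8 * dd m ^ 2 + 1).toNat) T admissible ∧
    ∀ (c : ℝ) (q : ℕ → ℝ), Model c q →
    ∀ δ : ℝ, 0 ≤ δ → ∀ ν : Measure ℝ, IsProbabilityMeasure ν →
        ((∃ (Ω : Type) (_ : MeasurableSpace Ω) (μ : Measure Ω) (_ : IsProbabilityMeasure μ) (A : Ω → Set ℕ) (L : Ω → ℝ), Cls q δ μ A ∧
          Measurable L ∧ μ.map L = ν ∧ ∀ᵐ ω ∂μ, Tendsto (fun x : ℕ => (M (A ω) x : ℝ) / Real.log x) atTop (𝓝 (L ω))) ↔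
        ν (Set.Iio 0) = 0 ∧ ∫⁻ u, ENNReal.ofReal (u * Real.log (u / c) - u + c) ∂ν ≤ ENNReal.ofReal δ) :=
  ⟨t_odd, t_bij, fun c q hM δ hδ ν hν => laws c q hM δ hδ ν hν⟩

end Pool.Agent.Results.MP_f53aaa_nt.LimitLaws
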