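import Pool.Agent.Q217.SG.SilverMain

/-!
# Euclid's lemma for the numbers `64 b ^ 2 + 9 = 8 d ^ 2 + 1` and sparse integers

The admissible primes are the primes among the numbers `N_m = 8 d_m ^ 2 + 1 = 64 b_m ^ 2 + 9`,
`d_m + b_m √8 = (3 + √8) ^ m`, with `m` odd (for even `m` the number `N_m` is divisible by `9`).  If `N_m`
is prime and divides `x y` then it divides `x` or `y`.  We show that all the numbers `N_m` with `m` odd
have this property of primes for integers with few Pell digits.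

Let `m` be odd, let `x`, `y`, `q` be sums of `k₁`, `k₂`, `l` terms `a P_α + b P_(α + 1)`, `P` the Pell
numbers, with sums `S₁`, `S₂`, `S₃` of the `|a| + 3 |b|`, and `K = k₁ + k₂ + 2 l`. Suppose that
`(2 K + 1) 4 ^ K ⌊log_2 (4 S₁ S₂ + 54 S₃)⌋ < 2 m`.

(1) If `x y = q N_m` then `N_m ∣ x` or `N_m ∣ y`.
(2) If `N_m = x y` where `x`, `y` are sums of `k₁`, `k₂` terms `± P_α`, `k = k₁ + k₂`, and
`(k + 3) ^ 2 4 ^ (k + 2) ≤ m`, then `x = ± 1` or `y = ± 1`.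
-/

set_option autoImplicit false

namespace Pool.Agent.Results.MP_f53aaa_nt.SparseEuclid

open Finset Q217.SG Q217.SG.Silver

/-- The solutions `(d_m, b_m)` of `d ^ 2 - 8 b ^ 2 = 1`, `d_m + b_m √8 = (3 + √8) ^ m`. -/
def sol : ℕ → ℤ × ℤ
  | 0 => (1, 0)
  | m + 1 => (3 * (sol m).1 + 8 * (sol m).2, (sol m).1 + 3 * (sol m).2)

/-- The numbers `8 d_m ^ 2 + 1`. -/
def N (m : ℕ) : ℤ := 8 * (sol m).1 ^ 2 + 1

theorem sol_eq (m : ℕ) : (sol m).1 ^ 2 - 8 * (sol m).2 ^ 2 = 1 := by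
  induction m with
  | zero => simp [sol]
  | succ m ih =>
    simp only [sol]
    linear_combination ih

theorem γ_pow (m : ℕ) : γ ^ (2 * m) = (⟨(sol m).1, 2 * (sol m).2⟩ : ZS) := by
  induction m with
  | zero =>
    ext <;> simp [sol, QuadraticAlgebra.re_one, QuadraticAlgebra.im_one]
  | succ m ih =>
    rw [Nat.mul_succ, pow_add, ih]
    have h : γ ^ 2 = (⟨3, 2⟩ : ZS) := by
      rw [sq]
      ext
      · change (1 : ℤ) * 1 + 2 * 1 * 1 = 3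
        norm_num
      · change (1 : ℤ) * 1 + 1 * 1 + 0 * 1 * 1 = 2
        norm_num
    rw [h]
    ext
    · change (sol m).1 * 3 + 2 * (2 * (sol m).2) * 2 = 3 * (sol m).1 + 8 * (sol m).2
      ring
    · change (sol m).1 * 2 + 2 * (sol m).2 * 3 + 0 * (2 * (sol m).2) * 2 =
        2 * ((sol m).1 + 3 * (sol m).2)
      ring

theorem γ'_pow (m : ℕ) : γ' ^ (2 * m) = (⟨(sol m).1, -(2 * (sol m).2)⟩ : ZS) := by
  have := congrArg star (γ_pow m)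
  rw [star_pow, star_γ] at this
  rw [this]
  ext <;> simp

/-- the factor `2 γ ^ (2 m) + γ ^ (-2 m)` -/
def π (m : ℕ) : ZS := 2 * γ ^ (2 * m) + γ' ^ (2 * m)

theorem star_π (m : ℕ) : star (π m) = γ ^ (2 * m) + 2 * γ' ^ (2 * m) := by
  have h2 : star (2 : ZS) = 2 := by ext <;> rfl
  have h3 : star γ' = γ := by rw [← star_γ, star_star]
  rw [π, star_add, star_mul, star_pow, star_pow, star_γ, h3, h2]
  ring

theorem γγ' (m : ℕ) : γ ^ (2 * m) * γ' ^ (2 * m) = 1 := by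
  rw [← mul_pow, γ_mul, pow_mul]
  norm_num

theorem π_mul (m : ℕ) : π m * star (π m) = (N m : ZS) := by
  have h1 := γγ' m
  have h2 : γ ^ (2 * m) + γ' ^ (2 * m) = ((2 * (sol m).1 : ℤ) : ZS) := by
    rw [γ_pow, γ'_pow]
    ext
    · rw [QuadraticAlgebra.re_intCast]
      change (sol m).1 + (sol m).1 = 2 * (sol m).1
      ring
    · rw [QuadraticAlgebra.im_intCast]
      change 2 * (sol m).2 + -(2 * (sol m).2) = 0
      ring
  rw [star_π, π, N]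
  push_cast at h2 ⊢
  linear_combination (2 * (γ ^ (2 * m) + γ' ^ (2 * m) + 2 * ((sol m).1 : ZS))) * h2 + h1

theorem γ_mul_π (m : ℕ) : γ ^ (2 * m) * π m = 2 * γ ^ (4 * m) + 1 := by
  have h1 := γγ' m
  have h2 : γ ^ (4 * m) = γ ^ (2 * m) * γ ^ (2 * m) := by rw [← pow_add]; congr 1; ring
  rw [π, h2]
  linear_combination h1

theorem sol_mod (m : ℕ) : (sol (2 * m + 1)).1 % 3 = 0 ∧ (sol (2 * m + 1)).2 % 3 ≠ 0 := by
  induction m with
  | zero => decide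
  | succ m ih =>
    have h1 : (sol (2 * (m + 1) + 1)).1 =
        3 * (sol (2 * (m + 1))).1 + 8 * (sol (2 * (m + 1))).2 := rfl
    have h2 : (sol (2 * (m + 1) + 1)).2 = (sol (2 * (m + 1))).1 + 3 * (sol (2 * (m + 1))).2 := rfl
    have h3 : (sol (2 * (m + 1))).1 = 3 * (sol (2 * m + 1)).1 + 8 * (sol (2 * m + 1)).2 := rfl
    have h4 : (sol (2 * (m + 1))).2 = (sol (2 * m + 1)).1 + 3 * (sol (2 * m + 1)).2 := rfl
    omega

theorem coprime_N {m : ℕ} (hm : Odd m) : IsCoprime (N m) 24 := by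
  obtain ⟨j, rfl⟩ := hm
  obtain ⟨d, hd⟩ : ∃ d, (sol (2 * j + 1)).1 = 3 * d := ⟨(sol (2 * j + 1)).1 / 3, by
    have := (sol_mod j).1; omega⟩
  refine ⟨1, -(3 * d ^ 2), ?_⟩
  rw [N, hd]
  ring

section Main

variable {m k₁ k₂ l : ℕ} {a₁ b₁ : Fin k₁ → ℤ} {α₁ : Fin k₁ → ℕ} {a₂ b₂ : Fin k₂ → ℤ}
  {α₂ : Fin k₂ → ℕ} {a₃ b₃ : Fin l → ℤ} {α₃ : Fin l → ℕ}

theorem sz_δ_mul (z : ZS) : sz (δ * z) ≤ 3 * sz z := by
  refine (QS₀.sz_mul _ _).trans (mul_le_mul_of_nonneg_right ?_ (QS₀.sz_nonneg _))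
  have h1 : QS₀.s₁ δ * QS₀.s₁ δ = 8 := by rw [← map_mul, δ_sq, map_ofNat]
  have h2 : QS₀.s₂ δ * QS₀.s₂ δ = 8 := by rw [← map_mul, δ_sq, map_ofNat]
  apply max_le
  · rw [abs_le]; constructor <;> nlinarith
  · rw [abs_le]; constructor <;> nlinarith

/-- the coefficients of the cofactor -/
def dd (a₃ b₃ : Fin l → ℤ) (α₃ : Fin l → ℕ) : Fin ((l + l) + (l + l)) → ZS :=
  Fin.addCases (fun j => δ * coef a₃ b₃ α₃ j) (fun j => 2 * (δ * coef a₃ b₃ α₃ j))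

/-- the exponents of the cofactor -/
def ff (α₃ : Fin l → ℕ) (m : ℕ) : Fin ((l + l) + (l + l)) → ℤ :=
  Fin.addCases (exps α₃ ((2 * m : ℕ) : ℤ)) (exps α₃ (-((2 * m : ℕ) : ℤ)))

theorem sum_dd : ∑ j, dd a₃ b₃ α₃ j * G (ff α₃ m j) =
    δ * (δ * (value a₃ b₃ α₃ : ZS)) * star (π m) := by
  rw [Fin.sum_univ_add]
  simp only [dd, ff, Fin.addCases_left, Fin.addCases_right, mul_assoc]
  rw [← Finset.mul_sum, ← Finset.mul_sum, ← Finset.mul_sum, sum_list, sum_list, G_natCast]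
  have h := G_neg (2 * m)
  have h2 : (-1 : ZS) ^ (2 * m) = 1 := by rw [pow_mul]; norm_num
  rw [h2, one_mul] at h
  rw [h, star_π]
  ring

theorem sz_dd : ∑ j, sz (dd a₃ b₃ α₃ j) ≤ 18 * (weight a₃ b₃ : ℝ) := by
  rw [Fin.sum_univ_add]
  simp only [dd, Fin.addCases_left, Fin.addCases_right]
  have h1 : ∑ j, sz (δ * coef a₃ b₃ α₃ j) ≤ 3 * ∑ j, sz (coef a₃ b₃ α₃ j) := by
    rw [Finset.mul_sum]
    exact Finset.sum_le_sum (fun j _ => sz_δ_mul _)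
  have h2 : ∑ j, sz (2 * (δ * coef a₃ b₃ α₃ j)) ≤ 2 * ∑ j, sz (δ * coef a₃ b₃ α₃ j) := by
    rw [Finset.mul_sum]
    apply Finset.sum_le_sum
    intro j _
    have := QS₀.sz_mul 2 (δ * coef a₃ b₃ α₃ j)
    have h3 : QS₀.sz 2 = 2 := sz_two
    rw [h3] at this
    exact this
  have h3 := sz_coef a₃ b₃ α₃
  linarith

theorem size_bound :
    ((∑ i, sz (coef a₁ b₁ α₁ i)) * (∑ i, sz (coef a₂ b₂ α₂ i)) +
        (∑ j, sz (dd a₃ b₃ α₃ j)) * (sz 2 + sz 1)) ^ 2 <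
      4 * QS₀.θ ^
        (2 * Nat.log 2 (4 * weight a₁ b₁ * weight a₂ b₂ + 54 * weight a₃ b₃) + 1) := by
  have n1 : 0 ≤ ∑ i, sz (coef a₁ b₁ α₁ i) := Finset.sum_nonneg (fun i _ => QS₀.sz_nonneg _)
  have n2 : 0 ≤ ∑ i, sz (coef a₂ b₂ α₂ i) := Finset.sum_nonneg (fun i _ => QS₀.sz_nonneg _)
  have n3 : 0 ≤ ∑ j, sz (dd a₃ b₃ α₃ j) := Finset.sum_nonneg (fun i _ => QS₀.sz_nonneg _)
  have h1 : sz (1 : ZS) = 1 := QS₀.sz_one
  rw [h1, sz_two]
  apply silver_bound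
  · exact add_nonneg (mul_nonneg n1 n2) (mul_nonneg n3 (by norm_num))
  · have h0 : (0 : ℝ) ≤ 2 * (weight a₁ b₁ : ℝ) := mul_nonneg (by norm_num) (Nat.cast_nonneg _)
    have h1 := mul_le_mul (sz_coef a₁ b₁ α₁) (sz_coef a₂ b₂ α₂) n2 h0
    have h2 := sz_dd (a₃ := a₃) (b₃ := b₃) (α₃ := α₃)
    push_cast
    linarith

theorem main_case (hodd : Odd m)
    (hbig : (2 * (k₁ + k₂ + 2 * l) + 1) * 4 ^ (k₁ + k₂ + 2 * l) *
      Nat.log 2 (4 * weight a₁ b₁ * weight a₂ b₂ + 54 * weight a₃ b₃) < 2 * m)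
    (h : value a₁ b₁ α₁ * value a₂ b₂ α₂ = value a₃ b₃ α₃ * N m) :
    N m ∣ value a₁ b₁ α₁ ∨ N m ∣ value a₂ b₂ α₂ := by
  have hF := γ_mul_π m
  have h' : (value a₁ b₁ α₁ : ZS) * (value a₂ b₂ α₂ : ZS) =
      (value a₃ b₃ α₃ : ZS) * (N m : ZS) := by
    have := congrArg (fun z : ℤ => (z : ZS)) h
    push_cast at this
    exact this
  have hsum : ∑ t, kk k₁ k₂ t + ((l + l) + (l + l)) = 2 * (k₁ + k₂ + 2 * l) := by
    rw [sum_kk]; ring
  have key := silver_two (n := m) (kk k₁ k₂) (cc a₁ b₁ α₁ a₂ b₂ α₂) (ee α₁ α₂ (2 * m))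
    (dd a₃ b₃ α₃) (ff α₃ m)
    (by
      rw [prod_cc, sum_dd, ← hF]
      have h3 := π_mul m
      linear_combination γ ^ (2 * m) * (δ * δ) * h' -
        (γ ^ (2 * m) * (δ * δ) * (value a₃ b₃ α₃ : ZS)) * h3)
    (2 * Nat.log 2 (4 * weight a₁ b₁ * weight a₂ b₂ + 54 * weight a₃ b₃))
    (by
      rw [Fin.prod_univ_two]
      exact size_bound)
    (by
      rw [hsum, pow_mul]
      calc (2 * (k₁ + k₂ + 2 * l) + 1) * (2 ^ 2) ^ (k₁ + k₂ + 2 * l) *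
            (2 * Nat.log 2 (4 * weight a₁ b₁ * weight a₂ b₂ + 54 * weight a₃ b₃))
          = 2 * ((2 * (k₁ + k₂ + 2 * l) + 1) * 4 ^ (k₁ + k₂ + 2 * l) *
            Nat.log 2 (4 * weight a₁ b₁ * weight a₂ b₂ + 54 * weight a₃ b₃)) := by
            norm_num; ring
        _ < 4 * m := by omega)
  have hfin : ∀ x : ℤ, 2 * γ ^ (4 * m) + 1 ∣ δ * (x : ZS) → N m ∣ x := by
    intro x hx
    rw [← hF] at hx
    have h1 : π m ∣ δ * (x : ZS) := (Dvd.intro_left _ rfl).trans hx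
    have h2 : star (π m) ∣ δ * (x : ZS) := by
      obtain ⟨w, hw⟩ := h1
      have h2 := congrArg star hw
      have hs : star (δ * (x : ZS)) = -(δ * (x : ZS)) := by
        rw [star_mul, star_δ]
        have : star (x : ZS) = (x : ZS) := by ext <;> simp
        rw [this]
        ring
      rw [hs, star_mul] at h2
      exact ⟨-star w, by linear_combination (-1 : ZS) * h2⟩
    have h3 : π m * star (π m) ∣ 3 * γ ^ (2 * m) * (δ * (x : ZS)) := by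
      have e : 3 * γ ^ (2 * m) * (δ * (x : ZS)) =
          2 * (π m * (δ * (x : ZS))) - (δ * (x : ZS)) * star (π m) := by
        rw [star_π, π]; ring
      rw [e]
      exact dvd_sub ((mul_dvd_mul_left _ h2).mul_left _) (mul_dvd_mul_right h1 _)
    rw [π_mul] at h3
    have h4 : (N m : ZS) ∣ ((24 * x : ℤ) : ZS) := by
      have h5 := h3.mul_left (γ' ^ (2 * m) * δ)
      have e : γ' ^ (2 * m) * δ * (3 * γ ^ (2 * m) * (δ * (x : ZS))) = ((24 * x : ℤ) : ZS) := by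
        push_cast
        have e1 := γγ' m
        have e2 := δ_sq
        linear_combination (3 * (δ * δ) * (x : ZS)) * e1 + (3 * (x : ZS)) * e2
      rwa [e] at h5
    exact (coprime_N hodd).dvd_of_dvd_mul_left (int_dvd h4)
  rcases dvd_cc a₁ b₁ α₁ a₂ b₂ α₂ key with h1 | h1
  · exact Or.inl (hfin _ h1)
  · exact Or.inr (hfin _ h1)

end Main

/-! ### Sparse factorizations -/

theorem log_bound {k₁ k₂ : ℕ} (h : 2 ≤ k₁ + k₂) :
    Nat.log 2 (4 * k₁ * k₂ + 54) ≤ k₁ + k₂ + 3 := by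
  have h1 : 4 * k₁ * k₂ ≤ (k₁ + k₂) ^ 2 := by nlinarith [sq_nonneg ((k₁ : ℤ) - k₂)]
  have hpow : ∀ k : ℕ, 2 ≤ k → k ^ 2 + 54 < 2 ^ (k + 4) := by
    intro k hk
    induction k, hk using Nat.le_induction with
    | base => norm_num
    | succ k hk ih =>
      have e : 2 ^ (k + 1 + 4) = 2 * 2 ^ (k + 4) := by ring
      rw [e]
      nlinarith
  have h2 := hpow (k₁ + k₂) h
  have h3 : Nat.log 2 (4 * k₁ * k₂ + 54) < k₁ + k₂ + 4 := by
    apply Nat.log_lt_of_lt_pow' (by omega)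
    omega
  omega

theorem part2 {m k₁ k₂ : ℕ} (hm : Odd m)
    (hbig : (k₁ + k₂ + 3) ^ 2 * 4 ^ (k₁ + k₂ + 2) ≤ m) {x y : ℤ}
    (hx : Sparse k₁ x) (hy : Sparse k₂ y) (h : x * y = N m) :
    (x = 1 ∨ x = -1) ∨ (y = 1 ∨ y = -1) := by
  have hN0 : N m ≠ 0 := by
    have : 0 < N m := by rw [N]; nlinarith [sq_nonneg (sol m).1]
    omega
  obtain ⟨a₁, α₁, hw₁, hx⟩ := sparse_value hx
  obtain ⟨a₂, α₂, hw₂, hy⟩ := sparse_value hy
  have hk1 : k₁ ≠ 0 := by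
    rintro rfl
    apply hN0
    rw [← h, hx]
    simp [value]
  have hk2 : k₂ ≠ 0 := by
    rintro rfl
    apply hN0
    rw [← h, hy]
    simp [value]
  have hw3 : weight (fun _ : Fin 1 => (1 : ℤ)) 0 = 1 := by simp [weight]
  have hlog := log_bound (k₁ := k₁) (k₂ := k₂) (by omega)
  have hb : (2 * (k₁ + k₂ + 2 * 1) + 1) * 4 ^ (k₁ + k₂ + 2 * 1) *
      Nat.log 2 (4 * weight a₁ 0 * weight a₂ 0 + 54 * weight (fun _ : Fin 1 => (1 : ℤ)) 0) <
        2 * m := by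
    rw [hw₁, hw₂, hw3, mul_one, mul_one]
    generalize hk : k₁ + k₂ = k at *
    calc (2 * (k + 2) + 1) * 4 ^ (k + 2) * Nat.log 2 (4 * k₁ * k₂ + 54)
        ≤ (2 * (k + 2) + 1) * 4 ^ (k + 2) * (k + 3) := Nat.mul_le_mul_left _ hlog
      _ < 2 * ((k + 3) ^ 2 * 4 ^ (k + 2)) := by
          have h1 : 0 < 4 ^ (k + 2) := by positivity
          have h2 : (2 * (k + 2) + 1) * (k + 3) < 2 * (k + 3) ^ 2 := by nlinarith
          nlinarith [Nat.mul_lt_mul_of_pos_right h2 h1]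
      _ ≤ 2 * m := Nat.mul_le_mul_left _ hbig
  have hval : value (fun _ : Fin 1 => (1 : ℤ)) 0 (fun _ => 1) = 1 := by simp [value, pell]
  have heq : value a₁ 0 α₁ * value a₂ 0 α₂ =
      value (fun _ : Fin 1 => (1 : ℤ)) 0 (fun _ => 1) * N m := by
    rw [hval, one_mul, ← hx, ← hy, h]
  have key : N m ∣ x ∨ N m ∣ y := by
    rw [hx, hy]
    exact main_case hm hb heq
  have hunit : ∀ u v : ℤ, u * v = N m → N m ∣ u → v = 1 ∨ v = -1 := by
    intro u v huv hd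
    obtain ⟨w, hw⟩ := hd
    have h1 : N m * (w * v) = N m * 1 := by rw [← mul_assoc, ← hw, huv, mul_one]
    have h2 := mul_left_cancel₀ hN0 h1
    exact Int.isUnit_iff.1 (IsUnit.of_mul_eq_one w (by rw [mul_comm]; exact h2))
  rcases key with h1 | h1
  · exact Or.inr (hunit x y h h1)
  · exact Or.inl (hunit y x (by rw [mul_comm]; exact h) h1)

/-- **Euclid's lemma for the numbers `N_m = 64 b ^ 2 + 9 = 8 d ^ 2 + 1` and sparse integers.** Let `m`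
be odd. If `N_m` divides the product of two integers with few windows of Pell digits, with a sparse
quotient, then it divides one of them. Every nontrivial factorization of `N_m` has at least about
`log_4 m` terms `± P_α` in its two factors. -/
theorem result :
    (∀ m : ℕ, 64 * (sol m).2 ^ 2 + 9 = N m) ∧
    (∀ (m k₁ k₂ l : ℕ) (a₁ b₁ : Fin k₁ → ℤ) (α₁ : Fin k₁ → ℕ) (a₂ b₂ : Fin k₂ → ℤ)
      (α₂ : Fin k₂ → ℕ) (a₃ b₃ : Fin l → ℤ) (α₃ : Fin l → ℕ), Odd m →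
      (2 * (k₁ + k₂ + 2 * l) + 1) * 4 ^ (k₁ + k₂ + 2 * l) *
        Nat.log 2 (4 * weight a₁ b₁ * weight a₂ b₂ + 54 * weight a₃ b₃) < 2 * m →
      value a₁ b₁ α₁ * value a₂ b₂ α₂ = value a₃ b₃ α₃ * N m →
      N m ∣ value a₁ b₁ α₁ ∨ N m ∣ value a₂ b₂ α₂) ∧
    (∀ (m k₁ k₂ : ℕ) (x y : ℤ), Odd m → (k₁ + k₂ + 3) ^ 2 * 4 ^ (k₁ + k₂ + 2) ≤ m →
      Sparse k₁ x → Sparse k₂ y → x * y = N m →
      (x = 1 ∨ x = -1) ∨ (y = 1 ∨ y = -1)) := by
  refine ⟨?_, ?_, ?_⟩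
  · intro m
    have := sol_eq m
    rw [N]
    linarith
  · intro m k₁ k₂ l a₁ b₁ α₁ a₂ b₂ α₂ a₃ b₃ α₃ ho hbig h
    exact main_case ho hbig h
  · intro m k₁ k₂ x y ho hbig hx hy h
    exact part2 ho hbig hx hy h

end Pool.Agent.Results.MP_f53aaa_nt.SparseEuclid
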